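import Mathlib
import Pool.Agent.Helper758.LS_T5B

/-! The limit functions of `t^(-ρ) log |f(t z)|`: version of `fr_log`, `fr_homogeneous` for a locally
integrable distributional limit (adapted from the starting file `Helper758.LS_T5B`). -/

set_option autoImplicit false

namespace Pool.Agent.W814.FrLoc
open MeasureTheory Filter Topology Set Complex
open Pool.Agent.Helper758.LS
open Pool.Agent.Helper758.LS.M_FIN (all_stationary)
open Pool.Agent.Helper758.LS.M_MOL (moll_contDiff)
open Pool.Agent.Helper758.LS.M_T2T3 (limset_cls path_compact)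
open Pool.Agent.Helper758.LS.M_T5A (pathOK_of_entire trigConvex_of_smooth)
open Pool.Agent.Helper758.LS.M_W5a (cont_rep)
open Pool.Agent.Helper758.LS.M_T5B

theorem fr_loc (ρ : ℝ) (hρ : 0 < ρ) (f : ℂ → ℂ) (hf : ClassA f ρ) (h2 : Cond2 f ρ) (v : ℂ → ℝ)
    (hv : LocallyIntegrable v volume) (t : ℕ → ℝ) (ht : Tendsto t atTop atTop)
    (hconv : ∀ ψ : ℂ → ℝ, ContDiff ℝ (⊤ : ℕ∞) ψ → HasCompactSupport ψ →
      Tendsto (fun j => ∫ z, (t j) ^ (-ρ) * Real.log ‖f (t j * z)‖ * ψ z) atTop
        (𝓝 (∫ z, v z * ψ z))) :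
    ∃ q : ℝ → ℝ, (∀ φ, q (φ + 2 * Real.pi) = q φ) ∧ TrigConvex ρ q ∧
      ∀ᵐ z : ℂ, v z = q (arg z) * ‖z‖ ^ ρ := by
  obtain ⟨h, ω, C, P, hd, htc, hP, hPae⟩ := pathOK_of_entire ρ hρ f hf h2
  have ht0 : ∀ᶠ n in atTop, 0 < t n := ht.eventually_gt_atTop 0
  have hτ : Tendsto (fun n => Real.log (t n)) atTop atTop := Real.tendsto_log_atTop.comp ht
  obtain ⟨s, U, hs, hUl, hUc⟩ := path_compact hd hP (fun n => Real.log (t n)) hτ
  have hUL : U ∈ LimSet P :=
    ⟨hUl, (fun n => Real.log (t n)) ∘ s, hτ.comp hs.tendsto_atTop, hUc⟩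
  have hcls := limset_cls hd hP U hUL
  obtain ⟨Uc, hUcc, hUae, -, hper, hmoll, -⟩ := cont_rep hd C U hcls
  have hstat := all_stationary hd htc hP U hUL
  have hUstat : ∀ s : ℝ, ∀ z : ℂ, Uc (z + s) = Uc z := by
    intro s
    have h1 : ∀ᵐ z : ℂ, U (z + s) = Uc (z + s) :=
      (measurePreserving_add_right (volume : Measure ℂ) (s : ℂ)).quasiMeasurePreserving.ae hUae
    have h3 : (fun z : ℂ => Uc (z + s)) =ᵐ[volume] Uc := by
      filter_upwards [hUae, h1, hstat s] with z e1 e2 e3
      rw [← e2, e3, e1]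
    have h4 := (Continuous.ae_eq_iff_eq volume
      (hUcc.comp (continuous_id.add continuous_const)) hUcc).1 h3
    exact fun z => congrFun h4 z
  have hUq : ∀ z : ℂ, Uc z = Uc (z.im * I) := by
    intro z
    have h1 := hUstat z.re (z.im * I)
    rw [← h1]
    congr 1
    rw [add_comm]
    exact (Complex.re_add_im z).symm
  set q : ℝ → ℝ := fun y => Uc (y * I) with hq
  have hqc : Continuous q := by
    apply hUcc.comp
    exact Complex.continuous_ofReal.mul continuous_const
  have hqp : ∀ y, q (y + 2 * Real.pi) = q y := by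
    intro y
    have h1 := hper (y * I)
    rw [hq]
    change Uc (((y + 2 * Real.pi : ℝ) : ℂ) * I) = Uc (y * I)
    rw [← h1]
    congr 1
    push_cast
    ring
  refine ⟨q, hqp, ?_, ?_⟩
  · -- trigonometric convexity
    apply aux_trig_lim (g := fun δ y => moll δ U (y * I)) (fun y => hmoll (y * I))
    intro δ hδ
    have hsm : ContDiff ℝ 2 (moll δ U) := by
      have := moll_contDiff δ hδ.1 U hUl 2
      exact_mod_cast this
    have hgs : ContDiff ℝ 2 (fun y : ℝ => moll δ U (y * I)) := by
      apply hsm.comp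
      apply ContDiff.mul _ contDiff_const
      exact Complex.ofRealCLM.contDiff
    apply trigConvex_of_smooth ρ hρ _ hgs
    intro y
    have h1 : moll δ U = fun z : ℂ => (fun y : ℝ => moll δ U (y * I)) z.im := by
      funext z
      have h3 := aux_moll_add (hstat z.re) δ (z.im * I)
      change moll δ U z = moll δ U (z.im * I)
      rw [← h3]
      congr 1
      rw [add_comm]
      exact (Complex.re_add_im z).symm
    have h3 := hcls.sub δ hδ (y * I)
    rw [h1, aux_Lop_comp hgs] at h3
    have h4 : ((y : ℂ) * I).im = y := by simp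
    rw [h4] at h3
    exact h3
  · -- almost everywhere equality
    have hwc : Continuous (aux_w ρ q) := aux_w_cont hρ hqc hqp
    have hwe : ∀ ζ : ℂ, aux_w ρ q (cexp ζ) = Real.exp (ρ * ζ.re) * Uc ζ := by
      intro ζ
      rw [aux_w_exp hqp, hUq ζ]
    have hfund : ∀ᵐ z : ℂ, z ∈ ({0}ᶜ : Set ℂ) → v z - aux_w ρ q z = 0 := by
      apply isOpen_compl_singleton.ae_eq_zero_of_integral_contDiff_smul_eq_zero
      · exact (hv.sub hwc.locallyIntegrable).locallyIntegrableOn _
      · intro g hg hgs hgt
        have hg0 : ∃ r > 0, ∀ z, ‖z‖ ≤ r → g z = 0 := by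
          have h1 : (0 : ℂ) ∈ (tsupport g)ᶜ := fun h => hgt h rfl
          have h3 : (tsupport g)ᶜ ∈ 𝓝 (0 : ℂ) := (isClosed_tsupport g).isOpen_compl.mem_nhds h1
          obtain ⟨r, hr, hr2⟩ := Metric.nhds_basis_closedBall.mem_iff.1 h3
          refine ⟨r, hr, fun z hz => ?_⟩
          have h4 := hr2 (mem_closedBall_zero_iff.2 hz)
          exact image_eq_zero_of_notMem_tsupport h4
        have hc1 := (hconv g hg hgs).comp hs.tendsto_atTop
        have hc2 := aux_key hρ hPae hP.loc hUl (t := t ∘ s) (hs.tendsto_atTop.eventually ht0)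
          hUc g hg.continuous hgs hg0
        have hlim := tendsto_nhds_unique hc1 hc2
        have e3 : ∫ ζ in {ζ : ℂ | -Real.pi < ζ.im ∧ ζ.im ≤ Real.pi},
            Real.exp (ρ * ζ.re) * U ζ * g (cexp ζ) * Real.exp (2 * ζ.re)
            = ∫ z, aux_w ρ q z * g z := by
          rw [aux_cov]
          apply integral_congr_ae
          apply ae_restrict_of_ae
          filter_upwards [hUae] with ζ hζ
          rw [hwe, hζ]
        rw [e3] at hlim
        have i1 : Integrable (fun z => g z * v z) volume := by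
          have := hv.integrable_smul_left_of_hasCompactSupport hg.continuous hgs
          simpa [smul_eq_mul] using this
        have i2 : Integrable (fun z => g z * aux_w ρ q z) volume := by
          have := (hwc.locallyIntegrable (μ := volume)).integrable_smul_left_of_hasCompactSupport
            hg.continuous hgs
          simpa [smul_eq_mul] using this
        calc ∫ z, g z • (v z - aux_w ρ q z)
            = ∫ z, (g z * v z - g z * aux_w ρ q z) := by
              congr 1
              funext z
              rw [smul_eq_mul, mul_sub]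
          _ = (∫ z, g z * v z) - ∫ z, g z * aux_w ρ q z := integral_sub i1 i2
          _ = 0 := by
              rw [sub_eq_zero]
              simp only [mul_comm (g _)]
              exact hlim
    have hne : ∀ᵐ z : ℂ, z ∈ ({0}ᶜ : Set ℂ) := by
      rw [ae_iff]
      simp
    filter_upwards [hfund, hne] with z hz hz0
    have h1 := hz hz0
    have h3 : aux_w ρ q z = q (arg z) * ‖z‖ ^ ρ := by
      unfold aux_w
      ring
    linarith

end Pool.Agent.W814.FrLoc
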