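import Pool.Agent.W810.KP.Defs

/-! Project KP (MP_5f99b0_pr), part TRI: the sum over all triples from the sum over the pairs. -/

set_option autoImplicit false

namespace Pool.Agent.W814.KPTri

open H974 H12S H973N Finset Pool.Agent.W810.KP

theorem dst_symm (e g : Edg) : dst e g = dst g e := by
  unfold dst
  rw [abs_sub_comm e.1, abs_sub_comm e.2.1]

theorem dst_tri (e g h : Edg) : dst e g ≤ dst e h + dst h g := by
  unfold dst
  have h1 := abs_sub_le e.1 h.1 g.1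
  have h2 := abs_sub_le e.2.1 h.2.1 g.2.1
  apply max_le
  · exact h1.trans (add_le_add (le_max_left _ _) (le_max_left _ _))
  · exact h2.trans (add_le_add (le_max_right _ _) (le_max_right _ _))

theorem mem_box {n : ℕ} {e : Edg} : e ∈ boxE n ↔ (-(n:ℤ) ≤ e.1 ∧ e.1 ≤ n) ∧
    (-(n:ℤ) ≤ e.2.1 ∧ e.2.1 ≤ n) ∧ (if e.2.2 then e.1 < n else e.2.1 < n) := by
  unfold boxE RE
  rw [Finset.mem_filter, Finset.mem_product, Finset.mem_product, Finset.mem_Icc, Finset.mem_Icc]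
  simp only [Finset.mem_univ, and_true, and_assoc]

theorem box_mono {n m : ℕ} (h : n ≤ m) : boxE n ⊆ boxE m := by
  intro e he
  rw [mem_box] at he ⊢
  have h' : (n:ℤ) ≤ m := by exact_mod_cast h
  obtain ⟨⟨h1, h2⟩, ⟨h3, h4⟩, h5⟩ := he
  refine ⟨⟨by linarith, by linarith⟩, ⟨by linarith, by linarith⟩, ?_⟩
  split_ifs at h5 ⊢ with hb
  · linarith
  · linarith

theorem card_box (n : ℕ) : ((boxE n).card : ℝ) ≤ 2 * (2 * n + 1) ^ 2 := by
  have h : (boxE n).card ≤ (2 * n + 1) * ((2 * n + 1) * 2) := by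
    unfold boxE RE
    refine (Finset.card_filter_le _ _).trans ?_
    rw [Finset.card_product, Finset.card_product, Int.card_Icc]
    have h1 : ((n:ℤ) + 1 - -(n:ℤ)).toNat = 2 * n + 1 := by omega
    rw [h1]
    simp
  have h' : ((boxE n).card : ℝ) ≤ (2 * n + 1) * ((2 * n + 1) * 2) := by exact_mod_cast h
  linarith [h', sq_nonneg ((n:ℝ))]

theorem far {b M : ℕ} {e g : Edg} (he : e ∈ boxE (b * 2)) (hg : g ∉ boxE (b * 3)) :
    (b:ℤ) ≤ dst e g := by
  rw [mem_box] at he hg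
  push_cast at he hg
  obtain ⟨⟨h1, h2⟩, ⟨h3, h4⟩, -⟩ := he
  unfold dst
  rw [le_max_iff, le_abs, le_abs]
  by_contra hcon
  push Not at hcon
  obtain ⟨⟨c1, c2⟩, c3, c4⟩ := hcon
  apply hg
  refine ⟨⟨by linarith, by linarith⟩, ⟨by linarith, by linarith⟩, ?_⟩
  split_ifs
  · linarith
  · linarith

theorem PQ_congr {q : ℝ} {S : Finset Edg} {A B : Finset Edg → Prop} (h : ∀ F, A F ↔ B F) :
    PQ q S A = PQ q S B := by
  have : A = B := by funext F; exact propext (h F)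
  rw [this]

theorem PQ_nonneg {q : ℝ} (h0 : 0 ≤ q) (h1 : q ≤ 1) (S : Finset Edg) (A : Finset Edg → Prop) :
    0 ≤ PQ q S A := Pr_nonneg (okq h0 h1) S A

theorem iso_cases {e g h : Edg} (h1 : e ≠ g) (h2 : e ≠ h) (h3 : g ≠ h) :
    Iso e g h ∨ Iso g e h ∨ Iso h e g := by
  have s1 := dst_symm e g
  have s2 := dst_symm e h
  have s3 := dst_symm g h
  unfold Iso
  rcases le_total (dst g h) (dst e g) with a | a <;> rcases le_total (dst g h) (dst e h) with b | b
  · exact Or.inl ⟨h1, h2, h3, a, b⟩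
  · exact Or.inr (Or.inl ⟨h1.symm, h3, h2, by linarith, b⟩)
  · exact Or.inr (Or.inr ⟨h2.symm, h3.symm, h1, by linarith, by linarith⟩)
  · rcases le_total (dst e g) (dst e h) with c | c
    · exact Or.inr (Or.inr ⟨h2.symm, h3.symm, h1, by linarith, by linarith⟩)
    · exact Or.inr (Or.inl ⟨h1.symm, h3, h2, by linarith, b⟩)

theorem sum_le {V S : Finset Edg} (hVS : V ⊆ S) (X : Edg → Edg → ℝ) (hX : ∀ g h, 0 ≤ X g h)
    (e : Edg) : ∑ g ∈ S.erase e, ∑ h ∈ (S.erase e).erase g,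
      (if g ∈ V ∧ h ∈ V then X g h else 0) ≤ ∑ g ∈ V, ∑ h ∈ V, X g h := by
  classical
  have hn : ∀ g h, 0 ≤ (if g ∈ V ∧ h ∈ V then X g h else 0) := by
    intro g h
    split_ifs
    · exact hX g h
    · exact le_rfl
  calc ∑ g ∈ S.erase e, ∑ h ∈ (S.erase e).erase g, (if g ∈ V ∧ h ∈ V then X g h else 0)
      ≤ ∑ g ∈ S.erase e, ∑ h ∈ S, (if g ∈ V ∧ h ∈ V then X g h else 0) := by
        apply Finset.sum_le_sum
        intro g _
        apply Finset.sum_le_sum_of_subset_of_nonneg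
        · exact (Finset.erase_subset _ _).trans (Finset.erase_subset _ _)
        · intro h _ _; exact hn g h
    _ ≤ ∑ g ∈ S, ∑ h ∈ S, (if g ∈ V ∧ h ∈ V then X g h else 0) := by
        apply Finset.sum_le_sum_of_subset_of_nonneg (Finset.erase_subset _ _)
        intro g _ _
        exact Finset.sum_nonneg fun h _ => hn g h
    _ = ∑ g ∈ V, ∑ h ∈ V, X g h := by
        have h1 : ∀ g, ∑ h ∈ S, (if g ∈ V ∧ h ∈ V then X g h else 0)
            = if g ∈ V then ∑ h ∈ V, X g h else 0 := by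
          intro g
          by_cases hg : g ∈ V
          · simp only [hg, true_and, if_true]
            rw [Finset.sum_ite_mem, Finset.inter_eq_right.2 hVS]
          · simp [hg]
        simp only [h1]
        rw [Finset.sum_ite_mem, Finset.inter_eq_right.2 hVS]

theorem main (hs : S_sym) (ha : S_arm) (hp : S_psum) : S_tri := by
  classical
  intro κ hκ
  obtain ⟨C0, hC0, hpsum⟩ := hp κ hκ
  refine ⟨21 * C0 + 6 * 10 ^ 8, by positivity, ?_⟩
  intro q n hW A ε hA hε hε2 h4 Λ M hn hnΛ hΛM harm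
  have h0 : 0 ≤ q := hW.q0
  have h1 : q ≤ 1 := hW.q1
  set b : ℕ := M / 4 with hb
  set S : Finset Edg := boxE M with hS
  set V : Finset Edg := boxE (b * 3) with hV
  set V0 : Finset Edg := boxE (b * 2) with hV0
  set X : ℝ := A ^ 3 * (n:ℝ) ^ (1/4 + 3 * ε) * ((Λ:ℝ) / n) ^ 4 with hX
  have hVS : V ⊆ S := box_mono (by omega)
  have hV0V : V0 ⊆ V := box_mono (by omega)
  have hX1 : 1 ≤ X := by
    have e1 : 1 ≤ A ^ 3 := one_le_pow₀ hA
    have e2 : 1 ≤ (n:ℝ) ^ (1/4 + 3 * ε) := by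
      apply Real.one_le_rpow
      · exact_mod_cast (by omega : 1 ≤ n)
      · positivity
    have e3 : 1 ≤ ((Λ:ℝ) / n) ^ 4 := by
      apply one_le_pow₀
      rw [one_le_div (by exact_mod_cast (by omega : 0 < n))]
      exact_mod_cast hnΛ
    rw [hX]
    calc (1:ℝ) = 1 * 1 * 1 := by norm_num
      _ ≤ _ := by gcongr
  have hpsum' : ∀ β ∈ V, ∑ g ∈ V, ∑ h ∈ V, ind (Iso β g h) * PQ q S (T3 β g h) ≤ C0 * X := by
    intro β hβ
    have := hpsum q n hW A ε hA hε hε2 h4 Λ M hn hnΛ hΛM harm β hβ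
    rw [hX]
    calc _ ≤ _ := this
      _ = _ := by ring
  set F : Edg → Edg → Edg → ℝ := fun x y z => ind (Iso x y z) * PQ q S (T3 x y z) with hF
  have hF0 : ∀ x y z, 0 ≤ F x y z := fun x y z =>
    mul_nonneg (ind_nonneg _) (PQ_nonneg h0 h1 _ _)
  -- symmetry
  have hsym1 : ∀ e g h : Edg, e ≠ g → e ≠ h → g ≠ h →
      PQ q S (T3 e g h) = PQ q S (T3 g e h) := fun e g h a b c =>
    PQ_congr fun Fs => (hs e g h a b c Fs).1
  have hsym2 : ∀ e g h : Edg, e ≠ g → e ≠ h → g ≠ h →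
      PQ q S (T3 e g h) = PQ q S (T3 e h g) := fun e g h a b c =>
    PQ_congr fun Fs => (hs e g h a b c Fs).2
  have hnear : ∀ e g h : Edg, e ≠ g → e ≠ h → g ≠ h →
      PQ q S (T3 e g h) ≤ F e g h + F g e h + F h e g := by
    intro e g h a b c
    rcases iso_cases a b c with hi | hi | hi
    · have : F e g h = PQ q S (T3 e g h) := by
        simp only [hF, ind_of hi, one_mul]
      linarith [hF0 g e h, hF0 h e g]
    · have : F g e h = PQ q S (T3 e g h) := by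
        simp only [hF, ind_of hi, one_mul]
        exact (hsym1 e g h a b c).symm
      linarith [hF0 e g h, hF0 h e g]
    · have : F h e g = PQ q S (T3 e g h) := by
        simp only [hF, ind_of hi, one_mul]
        rw [hsym2 e g h a b c, hsym1 e h g b a c.symm]
      linarith [hF0 e g h, hF0 g e h]
  set B : ℝ := ((b:ℝ) ^ 6)⁻¹ with hB
  have hbΛ : Λ ≤ b := by omega
  have hb4 : 4000 ≤ b := by omega
  have harmb : arm q (b / 4) ≤ B := harm b hbΛ
  -- an edge far from one other edge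
  have hfar2 : ∀ e g h : Edg, e ≠ g → e ≠ h → g ≠ h → (b:ℤ) ≤ dst e g →
      PQ q S (T3 e g h) ≤ B := by
    intro e g h a c d hd
    have ht := dst_tri e g h
    have hc : ((b / 4 : ℕ) : ℤ) + 1 ≤ dst e g := by omega
    by_cases hh : ((b / 4 : ℕ) : ℤ) + 1 ≤ dst e h
    · exact (ha q h0 h1 S e g h (b / 4) d hc hh).trans harmb
    · have h5 : ((b / 4 : ℕ) : ℤ) + 1 ≤ dst g h := by
        rw [dst_symm h g] at ht
        omega
      rw [hsym1 e g h a c d]
      refine (ha q h0 h1 S g e h (b / 4) c ?_ h5).trans harmb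
      rw [dst_symm g e]
      exact hc
  have hB0 : 0 ≤ B := by positivity
  have hpt : ∀ e ∈ V0, ∀ g ∈ S.erase e, ∀ h ∈ (S.erase e).erase g, PQ q S (T3 e g h) ≤
      (if g ∈ V ∧ h ∈ V then F e g h + F g e h + F h e g else 0) + B := by
    intro e he g hg h hh
    rw [Finset.mem_erase] at hg
    rw [Finset.mem_erase, Finset.mem_erase] at hh
    have n1 : e ≠ g := hg.1.symm
    have n2 : e ≠ h := hh.2.1.symm
    have n3 : g ≠ h := hh.1.symm
    split_ifs with hVV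
    · exact (hnear e g h n1 n2 n3).trans (by linarith)
    · rw [zero_add]
      rw [not_and_or] at hVV
      rcases hVV with hgV | hhV
      · exact hfar2 e g h n1 n2 n3 (far (M := M) he hgV)
      · rw [hsym2 e g h n1 n2 n3]
        exact hfar2 e h g n2 n1 n3.symm (far (M := M) he hhV)
  have hcount : ∀ e, ∑ g ∈ S.erase e, ∑ h ∈ (S.erase e).erase g, B ≤ (S.card : ℝ) * S.card * B := by
    intro e
    calc ∑ g ∈ S.erase e, ∑ h ∈ (S.erase e).erase g, B
        ≤ ∑ g ∈ S.erase e, ∑ h ∈ S, B := by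
          apply Finset.sum_le_sum
          intro g _
          apply Finset.sum_le_sum_of_subset_of_nonneg
          · exact (Finset.erase_subset _ _).trans (Finset.erase_subset _ _)
          · intro h _ _; exact hB0
      _ ≤ ∑ g ∈ S, ∑ h ∈ S, B := by
          apply Finset.sum_le_sum_of_subset_of_nonneg (Finset.erase_subset _ _)
          intro g _ _
          exact Finset.sum_nonneg fun h _ => hB0
      _ = (S.card : ℝ) * S.card * B := by
          simp only [Finset.sum_const, nsmul_eq_mul]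
          ring
  -- the three sums
  have t1 : ∑ e ∈ V, ∑ g ∈ V, ∑ h ∈ V, F e g h ≤ V.card * (C0 * X) := by
    calc ∑ e ∈ V, ∑ g ∈ V, ∑ h ∈ V, F e g h ≤ ∑ e ∈ V, C0 * X :=
          Finset.sum_le_sum fun e he => hpsum' e he
      _ = V.card * (C0 * X) := by rw [Finset.sum_const, nsmul_eq_mul]
  have t2 : ∑ e ∈ V, ∑ g ∈ V, ∑ h ∈ V, F g e h ≤ V.card * (C0 * X) := by
    rw [Finset.sum_comm]
    exact t1
  have t3 : ∑ e ∈ V, ∑ g ∈ V, ∑ h ∈ V, F h e g ≤ V.card * (C0 * X) := by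
    have e1 : ∑ e ∈ V, ∑ g ∈ V, ∑ h ∈ V, F h e g = ∑ e ∈ V, ∑ h ∈ V, ∑ g ∈ V, F h e g :=
      Finset.sum_congr rfl fun e _ => Finset.sum_comm
    rw [e1, Finset.sum_comm]
    exact t1
  have hXX : 0 ≤ X := by linarith
  have hcV : (V.card : ℝ) ≤ 7 * (M:ℝ) ^ 2 := by
    have h5 := card_box (b * 3)
    have h6 : ((b * 3 : ℕ) : ℝ) ≤ 3 * (M:ℝ) / 4 := by
      have h7 : 4 * b ≤ M := by omega
      have h8 : 4 * (b:ℝ) ≤ M := by exact_mod_cast h7
      push_cast
      linarith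
    have h9 : (1:ℝ) ≤ (M:ℝ) / 16000 := by
      rw [le_div_iff₀ (by norm_num)]
      have : 16000 ≤ M := by omega
      have : (16000:ℝ) ≤ M := by exact_mod_cast this
      linarith
    calc (V.card : ℝ) ≤ 2 * (2 * ((b * 3 : ℕ) : ℝ) + 1) ^ 2 := h5
      _ ≤ 2 * (2 * (3 * (M:ℝ) / 4) + (M:ℝ) / 16000) ^ 2 := by gcongr
      _ ≤ 7 * (M:ℝ) ^ 2 := by nlinarith [sq_nonneg (M:ℝ)]
  have hcV0 : (V0.card : ℝ) ≤ 7 * (M:ℝ) ^ 2 := by
    refine le_trans ?_ hcV
    exact_mod_cast Finset.card_le_card hV0V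
  have hcS : (S.card : ℝ) ≤ 18 * (M:ℝ) ^ 2 := by
    have h5 := card_box M
    have h9 : (1:ℝ) ≤ (M:ℝ) := by exact_mod_cast (by omega : 1 ≤ M)
    calc (S.card : ℝ) ≤ 2 * (2 * (M:ℝ) + 1) ^ 2 := h5
      _ ≤ 2 * (2 * (M:ℝ) + M) ^ 2 := by gcongr
      _ = 18 * (M:ℝ) ^ 2 := by ring
  have hM1 : (1:ℝ) ≤ (M:ℝ) := by exact_mod_cast (by omega : 1 ≤ M)
  have hbM : (M:ℝ) / 8 ≤ b := by
    have h7 : M ≤ 8 * b := by omega
    have h8 : (M:ℝ) ≤ 8 * b := by exact_mod_cast h7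
    linarith
  have hBM : B ≤ 8 ^ 6 / (M:ℝ) ^ 6 := by
    rw [hB, inv_eq_one_div, div_le_div_iff₀ (by positivity) (by positivity)]
    have h9 : ((M:ℝ) / 8) ^ 6 ≤ (b:ℝ) ^ 6 := by gcongr
    rw [div_pow] at h9
    rw [div_le_iff₀ (by positivity)] at h9
    linarith
  have hrest : (V0.card : ℝ) * ((S.card : ℝ) * S.card * B) ≤ 6 * 10 ^ 8 := by
    calc (V0.card : ℝ) * ((S.card : ℝ) * S.card * B)
        ≤ (7 * (M:ℝ) ^ 2) * ((18 * (M:ℝ) ^ 2) * (18 * (M:ℝ) ^ 2) * (8 ^ 6 / (M:ℝ) ^ 6)) := by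
          gcongr
      _ = 7 * 18 * 18 * 8 ^ 6 := by
          have : (M:ℝ) ≠ 0 := by positivity
          field_simp
      _ ≤ 6 * 10 ^ 8 := by norm_num
  calc ∑ e ∈ V0, ∑ g ∈ S.erase e, ∑ h ∈ (S.erase e).erase g, PQ q S (T3 e g h)
      ≤ ∑ e ∈ V0, ∑ g ∈ S.erase e, ∑ h ∈ (S.erase e).erase g,
        ((if g ∈ V ∧ h ∈ V then F e g h + F g e h + F h e g else 0) + B) :=
        Finset.sum_le_sum fun e he => Finset.sum_le_sum fun g hg =>
          Finset.sum_le_sum fun h hh => hpt e he g hg h hh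
    _ = (∑ e ∈ V0, ∑ g ∈ S.erase e, ∑ h ∈ (S.erase e).erase g,
          (if g ∈ V ∧ h ∈ V then F e g h + F g e h + F h e g else 0))
        + ∑ e ∈ V0, ∑ g ∈ S.erase e, ∑ h ∈ (S.erase e).erase g, B := by
        simp only [Finset.sum_add_distrib]
    _ ≤ (∑ e ∈ V0, ∑ g ∈ V, ∑ h ∈ V, (F e g h + F g e h + F h e g))
        + ∑ e ∈ V0, (S.card : ℝ) * S.card * B := by
        apply add_le_add
        · apply Finset.sum_le_sum
          intro e _
          exact sum_le hVS _ (fun g h => by linarith [hF0 e g h, hF0 g e h, hF0 h e g]) e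
        · exact Finset.sum_le_sum fun e _ => hcount e
    _ ≤ (∑ e ∈ V, ∑ g ∈ V, ∑ h ∈ V, (F e g h + F g e h + F h e g))
        + V0.card * ((S.card : ℝ) * S.card * B) := by
        apply add_le_add
        · apply Finset.sum_le_sum_of_subset_of_nonneg hV0V
          intro e _ _
          exact Finset.sum_nonneg fun g _ => Finset.sum_nonneg fun h _ => by
            linarith [hF0 e g h, hF0 g e h, hF0 h e g]
        · rw [Finset.sum_const, nsmul_eq_mul]
    _ = ((∑ e ∈ V, ∑ g ∈ V, ∑ h ∈ V, F e g h) + (∑ e ∈ V, ∑ g ∈ V, ∑ h ∈ V, F g e h)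
          + ∑ e ∈ V, ∑ g ∈ V, ∑ h ∈ V, F h e g) + V0.card * ((S.card : ℝ) * S.card * B) := by
        simp only [Finset.sum_add_distrib]
    _ ≤ (V.card * (C0 * X) + V.card * (C0 * X) + V.card * (C0 * X)) + 6 * 10 ^ 8 := by
        linarith
    _ ≤ (7 * (M:ℝ) ^ 2 * (C0 * X) + 7 * (M:ℝ) ^ 2 * (C0 * X) + 7 * (M:ℝ) ^ 2 * (C0 * X))
          + 6 * 10 ^ 8 * ((M:ℝ) ^ 2 * X) := by
        have h5 : 0 ≤ C0 * X := by positivity
        have h6 : (1:ℝ) ≤ (M:ℝ) ^ 2 * X := by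
          have : (1:ℝ) ≤ (M:ℝ) ^ 2 := one_le_pow₀ hM1
          calc (1:ℝ) = 1 * 1 := by norm_num
            _ ≤ _ := by gcongr
        have h7 := mul_le_mul_of_nonneg_right hcV h5
        linarith
    _ = (21 * C0 + 6 * 10 ^ 8) * (M:ℝ) ^ 2 * X := by ring

end Pool.Agent.W814.KPTri
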